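import Pool.Agent.R94.TS.Stm

/-! TS-A (helper139): subsets of `X m R` give subsemigroups. -/

set_option autoImplicit false

namespace Pool.Agent.R94.TS

namespace SAaux

variable {m R : ℕ}

theorem comp_rank {f g : Fin (m + 1) → Fin (m + 1)} (hf : f ∈ X m R) (hg : g ∈ X m R) :
    (Set.range (f ∘ g)).ncard < R := by
  obtain ⟨hf1, _, hf3⟩ := hf
  obtain ⟨_, hg2, _⟩ := hg
  have hsub : Set.range (f ∘ g) ⊆ Set.range f \ {f 0} := by
    rintro _ ⟨x, rfl⟩
    refine ⟨⟨g x, rfl⟩, fun h => hg2 ⟨x, hf3 _ ?_⟩⟩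
    simpa using h
  calc (Set.range (f ∘ g)).ncard ≤ (Set.range f \ {f 0}).ncard :=
        Set.ncard_le_ncard hsub (Set.toFinite _)
    _ < (Set.range f).ncard := Set.ncard_sdiff_singleton_lt_of_mem ⟨0, rfl⟩ (Set.toFinite _)
    _ = R := hf1

theorem comp_le (f g : Fin (m + 1) → Fin (m + 1)) :
    (Set.range (f ∘ g)).ncard ≤ (Set.range g).ncard := by
  rw [Set.range_comp]
  exact Set.ncard_image_le (Set.toFinite _)

/-- the subsemigroup of a subset of `X m R` -/
def sub (A : Set (Fin (m + 1) → Fin (m + 1))) (hA : A ⊆ X m R) :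
    Subsemigroup (Function.End (Fin (m + 1))) where
  carrier := {f | (Set.range (f : Fin (m + 1) → Fin (m + 1))).ncard < R ∨
    (f : Fin (m + 1) → Fin (m + 1)) ∈ A}
  mul_mem' := by
    intro f g hf hg
    left
    change (Set.range ((f : Fin (m + 1) → Fin (m + 1)) ∘ g)).ncard < R
    rcases hf with hf | hf
    · refine lt_of_le_of_lt (Set.ncard_le_ncard ?_ (Set.toFinite _)) hf
      rintro _ ⟨x, rfl⟩
      exact ⟨g x, rfl⟩
    · rcases hg with hg | hg
      · exact lt_of_le_of_lt (comp_le f g) hg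
      · exact comp_rank (hA hf) (hA hg)

theorem mem_sub (A : Set (Fin (m + 1) → Fin (m + 1))) (hA : A ⊆ X m R)
    (f : Fin (m + 1) → Fin (m + 1)) : (f : Function.End (Fin (m + 1))) ∈ sub A hA ↔
      (Set.range f).ncard < R ∨ f ∈ A := Iff.rfl

theorem two_le {f : Fin (m + 1) → Fin (m + 1)} (hf : f ∈ X m R) : 2 ≤ R := by
  obtain ⟨h1, h2, h3⟩ := hf
  rcases Nat.eq_zero_or_pos m with h | h
  · subst h
    exact absurd ⟨0, Fin.ext (by omega)⟩ h2
  · have hne : f ⟨1, by omega⟩ ≠ f 0 := by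
      intro he
      have := h3 _ he
      simp [Fin.ext_iff] at this
    rw [← h1, ← Set.ncard_pair hne]
    refine Set.ncard_le_ncard ?_ (Set.toFinite _)
    rintro x (rfl | rfl)
    · exact ⟨_, rfl⟩
    · exact ⟨_, rfl⟩

theorem sub_nonempty (hX : (X m R).Nonempty) (A : Set (Fin (m + 1) → Fin (m + 1)))
    (hA : A ⊆ X m R) : (sub A hA : Set (Function.End (Fin (m + 1)))).Nonempty := by
  obtain ⟨f, hf⟩ := hX
  have h2 := two_le hf
  refine ⟨(fun _ => 0 : Fin (m + 1) → Fin (m + 1)), Or.inl ?_⟩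
  rw [Set.range_const, Set.ncard_singleton]
  omega

end SAaux

open SAaux

theorem sA : SA := by
  intro m R
  have hfin : Finite (Subsemigroup (Function.End (Fin (m + 1)))) := by
    have : Finite (Function.End (Fin (m + 1))) :=
      inferInstanceAs (Finite (Fin (m + 1) → Fin (m + 1)))
    exact Finite.of_injective (fun S : Subsemigroup (Function.End (Fin (m + 1))) =>
      (S : Set (Function.End (Fin (m + 1))))) SetLike.coe_injective
  rcases (X m R).eq_empty_or_nonempty with hX | hX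
  · rw [hX, Set.ncard_empty, pow_zero]
    have : Nonempty {S : Subsemigroup (Function.End (Fin (m + 1))) //
        (S : Set (Function.End (Fin (m + 1)))).Nonempty} := ⟨⟨⊤, ⟨1, trivial⟩⟩⟩
    exact Nat.one_le_iff_ne_zero.2 Nat.card_pos.ne'
  · rw [← Set.ncard_powerset (X m R) (Set.toFinite _), ← Nat.card_coe_set_eq]
    refine Nat.card_le_card_of_injective
      (fun A : ↥(𝒫 (X m R)) => (⟨sub A.1 A.2, sub_nonempty hX A.1 A.2⟩ :
        {S : Subsemigroup (Function.End (Fin (m + 1))) //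
          (S : Set (Function.End (Fin (m + 1)))).Nonempty})) ?_
    intro A B hAB
    have h1 : sub A.1 A.2 = sub B.1 B.2 := congrArg Subtype.val hAB
    apply Subtype.ext
    ext f
    have key : ∀ A : ↥(𝒫 (X m R)), f ∈ A.1 ↔
        (f : Function.End (Fin (m + 1))) ∈ sub A.1 A.2 ∧ f ∈ X m R := by
      intro A
      constructor
      · intro h
        exact ⟨Or.inr h, A.2 h⟩
      · rintro ⟨h | h, hX⟩
        · exact absurd hX.1 (ne_of_lt h)
        · exact h
    rw [key A, key B, h1]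

end Pool.Agent.R94.TS
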