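import Pool.Agent.R94.TS.Stm

set_option autoImplicit false

/-! TS-B: a rank class of size `c n^n / sqrt n` (second moment method). -/

namespace Pool.Agent.R94.TS.B

open Finset

open scoped Classical

/-- the union of the sets `X m R` -/
noncomputable def M (m : ℕ) : Finset (Fin (m + 1) → Fin (m + 1)) :=
  univ.filter fun f => 0 ∉ Set.range f ∧ ∀ x, f x = f 0 → x = 0

/-- the number of nonzero points which are not hit -/
noncomputable def Ef {m : ℕ} (f : Fin (m + 1) → Fin (m + 1)) : ℕ :=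
  ((univ.erase (0 : Fin (m + 1))).filter fun z => z ∉ Set.range f).card

theorem count (m : ℕ) (Z : Finset (Fin (m + 1))) (h0 : (0 : Fin (m + 1)) ∉ Z) :
    ((M m).filter fun f => ∀ z ∈ Z, z ∉ Set.range f).card
      = (m - Z.card) * (m - 1 - Z.card) ^ m := by
  set S : Finset (Σ _ : Fin (m + 1), (Fin m → Fin (m + 1))) :=
    (univ \ insert 0 Z).sigma (fun y => Fintype.piFinset (fun _ : Fin m => univ \ insert y (insert 0 Z)))
    with hS
  have h1 : ((M m).filter fun f => ∀ z ∈ Z, z ∉ Set.range f).card = S.card := by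
    refine Finset.card_bij' (fun f _ => ⟨f 0, Fin.tail f⟩) (fun p _ => Fin.cons p.1 p.2) ?_ ?_ ?_ ?_
    · intro f hf
      simp only [M, mem_filter, mem_univ, true_and] at hf
      obtain ⟨⟨hf0, hf1⟩, hf2⟩ := hf
      have hr : ∀ x, f x ∉ insert 0 Z := by
        intro x hx
        rcases Finset.mem_insert.1 hx with h | h
        · exact hf0 ⟨x, h⟩
        · exact hf2 _ h ⟨x, rfl⟩
      rw [hS, Finset.mem_sigma]
      refine ⟨by simpa using hr 0, ?_⟩
      rw [Fintype.mem_piFinset]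
      intro i
      rw [Finset.mem_sdiff]
      refine ⟨mem_univ _, fun h => ?_⟩
      rcases Finset.mem_insert.1 h with h | h
      · have := hf1 i.succ h
        exact Fin.succ_ne_zero i this
      · exact hr _ h
    · rintro ⟨y, g⟩ hp
      rw [hS, Finset.mem_sigma, Fintype.mem_piFinset] at hp
      obtain ⟨hy, hg⟩ := hp
      simp only [Finset.mem_sdiff, mem_univ, true_and] at hy hg
      have hr : ∀ x, (Fin.cons y g : Fin (m + 1) → Fin (m + 1)) x ∉ insert 0 Z := by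
        intro x
        refine Fin.cases ?_ ?_ x
        · simpa using hy
        · intro i
          rw [Fin.cons_succ]
          exact fun h => hg i (Finset.mem_insert_of_mem h)
      simp only [M, mem_filter, mem_univ, true_and]
      refine ⟨⟨?_, ?_⟩, ?_⟩
      · rintro ⟨x, hx⟩
        exact hr x (by rw [hx]; exact Finset.mem_insert_self _ _)
      · intro x
        refine Fin.cases (fun _ => rfl) (fun i hi => ?_) x
        rw [Fin.cons_succ, Fin.cons_zero] at hi
        exact absurd (by rw [hi]; exact Finset.mem_insert_self _ _) (hg i)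
      · rintro z hz ⟨x, hx⟩
        exact hr x (by rw [hx]; exact Finset.mem_insert_of_mem hz)
    · intro f _
      exact Fin.cons_self_tail f
    · rintro ⟨y, g⟩ _
      simp
  rw [h1, hS, Finset.card_sigma]
  have h2 : ∀ y ∈ (univ \ insert 0 Z : Finset (Fin (m + 1))),
      (Fintype.piFinset (fun _ : Fin m => (univ \ insert y (insert 0 Z) : Finset (Fin (m + 1))))).card
        = (m - 1 - Z.card) ^ m := by
    intro y hy
    rw [Fintype.card_piFinset]
    simp only [Finset.mem_sdiff, mem_univ, true_and] at hy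
    have hc : (univ \ insert y (insert 0 Z) : Finset (Fin (m + 1))).card = m - 1 - Z.card := by
      rw [Finset.card_sdiff_of_subset (Finset.subset_univ _), Finset.card_insert_of_notMem hy,
        Finset.card_insert_of_notMem h0, Finset.card_univ, Fintype.card_fin]
      omega
    rw [Finset.prod_congr rfl (fun i _ => hc)]
    simp
  rw [Finset.sum_congr rfl h2, Finset.sum_const, smul_eq_mul]
  congr 1
  rw [Finset.card_sdiff_of_subset (Finset.subset_univ _), Finset.card_insert_of_notMem h0,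
    Finset.card_univ, Fintype.card_fin]
  omega

theorem card_M (m : ℕ) : (M m).card = m * (m - 1) ^ m := by
  have h := count m ∅ (by simp)
  simpa using h

theorem sum_E (m : ℕ) : ∑ f ∈ M m, Ef f = m * ((m - 1) * (m - 1 - 1) ^ m) := by
  have h1 : ∀ f ∈ M m, Ef f = ∑ z ∈ univ.erase (0 : Fin (m + 1)), if z ∉ Set.range f then 1 else 0 := by
    intro f _
    rw [Ef, Finset.card_filter]
  rw [Finset.sum_congr rfl h1, Finset.sum_comm]
  have h2 : ∀ z ∈ univ.erase (0 : Fin (m + 1)),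
      ∑ f ∈ M m, (if z ∉ Set.range f then 1 else 0) = (m - 1) * (m - 1 - 1) ^ m := by
    intro z hz
    have hz0 : z ≠ 0 := (Finset.mem_erase.1 hz).1
    have h := count m {z} (by simpa using hz0.symm)
    rw [← Finset.card_filter]
    rw [Finset.card_singleton] at h
    rw [← h]
    congr 1
    ext f
    simp
  rw [Finset.sum_congr rfl h2, Finset.sum_const, smul_eq_mul, Finset.card_erase_of_mem (mem_univ _),
    Finset.card_univ, Fintype.card_fin]
  simp

theorem sum_E2 (m : ℕ) : ∑ f ∈ M m, Ef f ^ 2 =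
    m * ((m - 1) * (m - 1 - 1) ^ m) + m * ((m - 1) * ((m - 2) * (m - 1 - 2) ^ m)) := by
  have h1 : ∀ f ∈ M m, Ef f ^ 2 = ∑ z ∈ univ.erase (0 : Fin (m + 1)),
      ∑ w ∈ univ.erase (0 : Fin (m + 1)), if z ∉ Set.range f ∧ w ∉ Set.range f then 1 else 0 := by
    intro f _
    rw [Ef, Finset.card_filter, sq, Finset.sum_mul_sum]
    refine Finset.sum_congr rfl fun z _ => Finset.sum_congr rfl fun w _ => ?_
    by_cases hz : z ∉ Set.range f
    · by_cases hw : w ∉ Set.range f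
      · rw [if_pos hz, if_pos hw, if_pos (And.intro hz hw), mul_one]
      · have h3 : ¬ (z ∉ Set.range f ∧ w ∉ Set.range f) := fun h => hw h.2
        rw [if_neg hw, if_neg h3, mul_zero]
    · have h3 : ¬ (z ∉ Set.range f ∧ w ∉ Set.range f) := fun h => hz h.1
      rw [if_neg hz, if_neg h3, zero_mul]
  rw [Finset.sum_congr rfl h1, Finset.sum_comm]
  have h2 : ∀ z ∈ univ.erase (0 : Fin (m + 1)),
      ∑ f ∈ M m, ∑ w ∈ univ.erase (0 : Fin (m + 1)),
        (if z ∉ Set.range f ∧ w ∉ Set.range f then 1 else 0)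
        = (m - 1) * (m - 1 - 1) ^ m + (m - 1) * ((m - 2) * (m - 1 - 2) ^ m) := by
    intro z hz
    have hz0 : z ≠ 0 := (Finset.mem_erase.1 hz).1
    rw [Finset.sum_comm]
    rw [← Finset.add_sum_erase _ _ hz]
    congr 1
    · have h := count m {z} (by simpa using hz0.symm)
      rw [← Finset.card_filter]
      rw [Finset.card_singleton] at h
      rw [← h]
      congr 1
      ext f
      simp
    · have h3 : ∀ w ∈ (univ.erase (0 : Fin (m + 1))).erase z,
          ∑ f ∈ M m, (if z ∉ Set.range f ∧ w ∉ Set.range f then 1 else 0)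
            = (m - 2) * (m - 1 - 2) ^ m := by
        intro w hw
        have hwz : w ≠ z := (Finset.mem_erase.1 hw).1
        have hw0 : w ≠ 0 := (Finset.mem_erase.1 (Finset.mem_erase.1 hw).2).1
        have h := count m {z, w} (by simp [hz0.symm, hw0.symm])
        rw [← Finset.card_filter]
        rw [Finset.card_pair hwz.symm] at h
        rw [← h]
        congr 1
        ext f
        simp
      rw [Finset.sum_congr rfl h3, Finset.sum_const, smul_eq_mul, Finset.card_erase_of_mem hz,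
        Finset.card_erase_of_mem (mem_univ _), Finset.card_univ, Fintype.card_fin]
      simp
  rw [Finset.sum_congr rfl h2, Finset.sum_const, smul_eq_mul, Finset.card_erase_of_mem (mem_univ _),
    Finset.card_univ, Fintype.card_fin]
  simp only [Nat.add_sub_cancel]
  ring

theorem card_near (I : Finset ℕ) (μ L : ℝ) (hL : 0 ≤ L) (h : ∀ e ∈ I, |(e : ℝ) - μ| < L) :
    (I.card : ℝ) ≤ 2 * L + 1 := by
  have h1 : I.card ≤ (Finset.Icc ⌈μ - L⌉ ⌊μ + L⌋).card := by
    refine Finset.card_le_card_of_injOn (fun e : ℕ => (e : ℤ)) ?_ ?_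
    · intro e he
      have := abs_lt.1 (h e he)
      simp only [Finset.coe_Icc, Set.mem_Icc]
      constructor
      · rw [Int.ceil_le]; push_cast; linarith
      · rw [Int.le_floor]; push_cast; linarith
    · intro a _ b _ hab
      have hab' : (a : ℤ) = (b : ℤ) := hab
      exact_mod_cast hab'
  rw [Int.card_Icc] at h1
  have h2 : ((⌊μ + L⌋ + 1 - ⌈μ - L⌉ : ℤ) : ℝ) ≤ 2 * L + 1 := by
    push_cast
    have h3 := Int.floor_le (μ + L)
    have h4 := Int.le_ceil (μ - L)
    linarith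
  rcases le_or_gt 0 (⌊μ + L⌋ + 1 - ⌈μ - L⌉) with h3 | h3
  · have h4 : ((⌊μ + L⌋ + 1 - ⌈μ - L⌉).toNat : ℤ) = ⌊μ + L⌋ + 1 - ⌈μ - L⌉ := Int.toNat_of_nonneg h3
    have h5 : (I.card : ℤ) ≤ ⌊μ + L⌋ + 1 - ⌈μ - L⌉ := by
      rw [← h4]; exact_mod_cast h1
    have h6 : (I.card : ℝ) ≤ ((⌊μ + L⌋ + 1 - ⌈μ - L⌉ : ℤ) : ℝ) := by exact_mod_cast h5
    linarith
  · rw [Int.toNat_of_nonpos h3.le] at h1
    have h4 : (I.card : ℝ) ≤ 0 := by exact_mod_cast h1
    linarith

theorem rank_add (m : ℕ) (f : Fin (m + 1) → Fin (m + 1)) (hf : (0 : Fin (m + 1)) ∉ Set.range f) :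
    (Set.range f).ncard + Ef f = m := by
  have h1 : (Set.range f).ncard = ((univ.erase (0 : Fin (m + 1))).filter fun z => z ∈ Set.range f).card := by
    rw [← Set.ncard_coe_finset]
    congr 1
    ext z
    simp only [Finset.coe_filter, Finset.mem_erase, mem_univ, and_true, Set.mem_ofPred_eq]
    constructor
    · intro hz
      exact ⟨fun h => hf (h ▸ hz), hz⟩
    · exact fun h => h.2
  rw [h1, Ef, Finset.card_filter_add_card_filter_not, Finset.card_erase_of_mem (mem_univ _),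
    Finset.card_univ, Fintype.card_fin]
  simp

theorem var_bound (m : ℕ) (hm : 3 ≤ m) : ∃ μ : ℝ,
    ∑ f ∈ M m, ((Ef f : ℝ) - μ) ^ 2 ≤ ((M m).card : ℝ) * (m - 1) ∧ 0 < ((M m).card : ℝ) := by
  obtain ⟨j, rfl⟩ : ∃ j, m = j + 3 := ⟨m - 3, by omega⟩
  have e0 : (((M (j + 3)).card : ℕ) : ℝ) = (j + 3) * (j + 2) ^ (j + 3) := by
    rw [card_M]
    have : j + 3 - 1 = j + 2 := by omega
    rw [this]; push_cast; ring
  have e1 : (∑ f ∈ M (j + 3), (Ef f : ℝ)) = (j + 3) * ((j + 2) * (j + 1) ^ (j + 3)) := by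
    have h := sum_E (j + 3)
    have a1 : j + 3 - 1 = j + 2 := by omega
    have a2 : j + 2 - 1 = j + 1 := by omega
    rw [a1, a2] at h
    rw [← Nat.cast_sum, h]; push_cast; ring
  have e2 : (∑ f ∈ M (j + 3), (Ef f : ℝ) ^ 2) = (j + 3) * ((j + 2) * (j + 1) ^ (j + 3))
      + (j + 3) * ((j + 2) * ((j + 1) * (j : ℝ) ^ (j + 3))) := by
    have h := sum_E2 (j + 3)
    have a1 : j + 3 - 1 = j + 2 := by omega
    have a2 : j + 2 - 1 = j + 1 := by omega
    have a3 : j + 3 - 2 = j + 1 := by omega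
    have a4 : j + 2 - 2 = j := by omega
    rw [a1, a2, a3, a4] at h
    have h' : (∑ f ∈ M (j + 3), (Ef f : ℝ) ^ 2) = ((∑ f ∈ M (j + 3), Ef f ^ 2 : ℕ) : ℝ) := by
      push_cast; rfl
    rw [h', h]; push_cast; ring
  set A : ℝ := (j + 3) * (j + 2) ^ (j + 3) with hA
  set S1 : ℝ := (j + 3) * ((j + 2) * (j + 1) ^ (j + 3)) with hS1
  set S3 : ℝ := (j + 3) * ((j + 2) * ((j + 1) * (j : ℝ) ^ (j + 3))) with hS3
  have hj : (0 : ℝ) ≤ j := Nat.cast_nonneg j
  have hA0 : 0 < A := by positivity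
  refine ⟨S1 / A, ?_, by rw [e0]; exact hA0⟩
  have hexp : ∑ f ∈ M (j + 3), ((Ef f : ℝ) - S1 / A) ^ 2 = S1 + S3 - S1 ^ 2 / A := by
    have h1 : ∀ f ∈ M (j + 3), ((Ef f : ℝ) - S1 / A) ^ 2
        = (Ef f : ℝ) ^ 2 - 2 * (S1 / A) * (Ef f : ℝ) + (S1 / A) ^ 2 := fun f _ => by ring
    rw [Finset.sum_congr rfl h1, Finset.sum_add_distrib, Finset.sum_sub_distrib, ← Finset.mul_sum,
      e1, e2, Finset.sum_const, nsmul_eq_mul, e0]
    field_simp
    ring
  rw [hexp, e0]
  have h1 : S1 ≤ A * ((j + 3 : ℕ) - 1 : ℝ) := by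
    rw [hS1, hA]
    have h2 : ((j : ℝ) + 1) ^ (j + 3) ≤ (j + 2) ^ (j + 3) :=
      pow_le_pow_left₀ (by positivity) (by linarith) _
    have h3 : (((j + 3 : ℕ) : ℝ) - 1) = j + 2 := by push_cast; ring
    rw [h3]
    calc ((j : ℝ) + 3) * ((j + 2) * (j + 1) ^ (j + 3)) ≤ (j + 3) * ((j + 2) * (j + 2) ^ (j + 3)) := by
          gcongr
      _ = (j + 3) * (j + 2) ^ (j + 3) * (j + 2) := by ring
  have h4 : S3 ≤ S1 ^ 2 / A := by
    rw [le_div_iff₀ hA0, hS3, hS1, hA]
    have h5 : ((j : ℝ) * (j + 2)) ^ (j + 3) ≤ ((j + 1) ^ 2) ^ (j + 3) :=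
      pow_le_pow_left₀ (by positivity) (by nlinarith) _
    have h6 : ((j : ℝ) + 1) * ((j : ℝ) * (j + 2)) ^ (j + 3) ≤ (j + 2) * ((j + 1) ^ 2) ^ (j + 3) :=
      mul_le_mul (by linarith) h5 (by positivity) (by positivity)
    rw [mul_pow, ← pow_mul, mul_comm 2 (j + 3), pow_mul] at h6
    calc ((j : ℝ) + 3) * ((j + 2) * ((j + 1) * (j : ℝ) ^ (j + 3))) * ((j + 3) * (j + 2) ^ (j + 3))
        = (j + 3) ^ 2 * (j + 2) * ((j + 1) * ((j : ℝ) ^ (j + 3) * (j + 2) ^ (j + 3))) := by ring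
      _ ≤ (j + 3) ^ 2 * (j + 2) * ((j + 2) * (((j : ℝ) + 1) ^ (j + 3)) ^ 2) :=
          mul_le_mul_of_nonneg_left h6 (by positivity)
      _ = ((j + 3) * ((j + 2) * ((j : ℝ) + 1) ^ (j + 3))) ^ 2 := by ring
  linarith

theorem M_large (m : ℕ) (hm : 3 ≤ m) :
    3 / 4 * Real.exp (-3) * ((m + 1 : ℕ) : ℝ) ^ (m + 1) ≤ ((M m).card : ℝ) := by
  obtain ⟨j, rfl⟩ : ∃ j, m = j + 3 := ⟨m - 3, by omega⟩
  rw [card_M]
  have a1 : j + 3 - 1 = j + 2 := by omega
  rw [a1]
  push_cast
  have hj : (0 : ℝ) ≤ j := Nat.cast_nonneg j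
  have h1 : ((j : ℝ) + 4) ≤ (j + 2) * Real.exp (2 / (j + 2)) := by
    have h2 := Real.add_one_le_exp (2 / ((j : ℝ) + 2))
    have h3 : ((j : ℝ) + 4) = (j + 2) * (2 / (j + 2) + 1) := by field_simp; ring
    rw [h3]
    exact mul_le_mul_of_nonneg_left h2 (by positivity)
  have h2 : ((j : ℝ) + 4) ^ (j + 3) ≤ (j + 2) ^ (j + 3) * Real.exp 3 := by
    calc ((j : ℝ) + 4) ^ (j + 3) ≤ ((j + 2) * Real.exp (2 / (j + 2))) ^ (j + 3) :=
          pow_le_pow_left₀ (by positivity) h1 _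
      _ = (j + 2) ^ (j + 3) * Real.exp (((j + 3 : ℕ) : ℝ) * (2 / (j + 2))) := by
          rw [mul_pow, ← Real.exp_nat_mul]
      _ ≤ (j + 2) ^ (j + 3) * Real.exp 3 := by
          gcongr
          push_cast
          rw [mul_div_assoc', div_le_iff₀ (by positivity)]
          linarith
  have h3 : (3 : ℝ) / 4 * (j + 4) ≤ j + 3 := by linarith
  have e : ((j : ℝ) + 3 + 1) = j + 4 := by ring
  rw [e]
  have e2 : j + 3 + 1 = (j + 3) + 1 := rfl
  rw [pow_succ]
  calc 3 / 4 * Real.exp (-3) * (((j : ℝ) + 4) ^ (j + 3) * (j + 4))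
      ≤ 3 / 4 * Real.exp (-3) * (((j + 2) ^ (j + 3) * Real.exp 3) * (j + 4)) := by gcongr
    _ = (Real.exp (-3) * Real.exp 3) * ((3 / 4 * (j + 4)) * (j + 2) ^ (j + 3)) := by ring
    _ = (3 / 4 * (j + 4)) * (j + 2) ^ (j + 3) := by
        rw [← Real.exp_add]; simp
    _ ≤ (j + 3) * (j + 2) ^ (j + 3) := by gcongr

end B

open Finset in
open scoped Classical in
theorem sB : SB := by
  refine ⟨9 / 80 * Real.exp (-3), by positivity, fun m hm => ?_⟩
  by_contra hcon
  push Not at hcon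
  set n : ℝ := ((m + 1 : ℕ) : ℝ) with hn
  have hm1 : (3 : ℝ) ≤ m := by exact_mod_cast hm
  have hn1 : n = m + 1 := by rw [hn]; push_cast; ring
  have hn0 : 0 < n := by rw [hn1]; linarith
  have hsn : 0 < Real.sqrt n := Real.sqrt_pos.2 hn0
  obtain ⟨μ, hvar, hM0⟩ := B.var_bound m hm
  set k : ℝ := (m : ℝ) - 1 with hk
  have hk0 : 0 < k := by rw [hk]; linarith
  set L : ℝ := 2 * Real.sqrt k with hLdef
  have hL0 : 0 < L := by positivity
  have hL2 : L ^ 2 = 4 * k := by
    rw [hLdef, mul_pow, Real.sq_sqrt hk0.le]; norm_num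
  set T := (B.M m).filter fun f => |(B.Ef f : ℝ) - μ| < L with hT
  set U := (B.M m).filter fun f => ¬ |(B.Ef f : ℝ) - μ| < L with hU
  have hTU : (T.card : ℝ) + U.card = (B.M m).card := by
    exact_mod_cast Finset.card_filter_add_card_filter_not _
  have hUc : (U.card : ℝ) * (4 * k) ≤ ((B.M m).card : ℝ) * k := by
    calc (U.card : ℝ) * (4 * k) = ∑ f ∈ U, L ^ 2 := by rw [hL2]; simp
      _ ≤ ∑ f ∈ U, ((B.Ef f : ℝ) - μ) ^ 2 := by
          refine Finset.sum_le_sum fun f hf => ?_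
          rw [hU, Finset.mem_filter, not_lt] at hf
          rw [← sq_abs ((B.Ef f : ℝ) - μ)]
          exact pow_le_pow_left₀ hL0.le hf.2 2
      _ ≤ ∑ f ∈ B.M m, ((B.Ef f : ℝ) - μ) ^ 2 :=
          Finset.sum_le_sum_of_subset_of_nonneg (Finset.filter_subset _ _) fun _ _ _ => sq_nonneg _
      _ ≤ _ := hvar
  have hUc' : (U.card : ℝ) ≤ ((B.M m).card : ℝ) / 4 := by
    have : (U.card : ℝ) * 4 ≤ ((B.M m).card : ℝ) := by
      have h1 : ((U.card : ℝ) * 4) * k ≤ ((B.M m).card : ℝ) * k := by linarith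
      exact le_of_mul_le_mul_right h1 hk0
    linarith
  have hTc : 3 / 4 * ((B.M m).card : ℝ) ≤ T.card := by linarith
  -- the fibres
  have hfib : ∀ e ∈ T.image B.Ef, ((T.filter fun f => B.Ef f = e).card : ℝ) ≤
      9 / 80 * Real.exp (-3) * n ^ (m + 1) / Real.sqrt n := by
    intro e _
    refine le_trans ?_ (hcon (m - e)).le
    rw [← Set.ncard_coe_finset]
    have hsub : ((T.filter fun f => B.Ef f = e : Finset (Fin (m + 1) → Fin (m + 1))) :
        Set (Fin (m + 1) → Fin (m + 1))) ⊆ X m (m - e) := ?_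
    · exact_mod_cast Set.ncard_le_ncard hsub (Set.toFinite _)
    intro f hf
    simp only [Finset.coe_filter, Set.mem_ofPred_eq, hT, Finset.mem_filter, B.M, mem_univ,
      true_and] at hf
    obtain ⟨⟨⟨h1, h2⟩, _⟩, h3⟩ := hf
    refine ⟨?_, h1, h2⟩
    have h4 := B.rank_add m f h1
    omega
  have hcard : (T.card : ℝ) ≤ ((T.image B.Ef).card : ℝ) *
      (9 / 80 * Real.exp (-3) * n ^ (m + 1) / Real.sqrt n) := by
    rw [Finset.card_eq_sum_card_image B.Ef T]
    push_cast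
    calc ∑ e ∈ T.image B.Ef, ((T.filter fun f => B.Ef f = e).card : ℝ)
        ≤ ∑ e ∈ T.image B.Ef, (9 / 80 * Real.exp (-3) * n ^ (m + 1) / Real.sqrt n) :=
          Finset.sum_le_sum hfib
      _ = _ := by rw [Finset.sum_const, nsmul_eq_mul]
  have hI : ((T.image B.Ef).card : ℝ) ≤ 2 * L + 1 := by
    refine B.card_near _ μ L hL0.le ?_
    intro e he
    rw [Finset.mem_image] at he
    obtain ⟨f, hf, rfl⟩ := he
    rw [hT, Finset.mem_filter] at hf
    exact hf.2
  have hLn : 2 * L + 1 < 5 * Real.sqrt n := by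
    have h1 : Real.sqrt k < Real.sqrt n := Real.sqrt_lt_sqrt hk0.le (by rw [hk, hn1]; linarith)
    have h2 : 1 ≤ Real.sqrt n := by
      rw [Real.one_le_sqrt, hn1]; linarith
    rw [hLdef]; linarith
  have hml := B.M_large m hm
  rw [← hn] at hml
  have hexp := Real.exp_pos (-3)
  have hpow : 0 < n ^ (m + 1) := by positivity
  set Q : ℝ := 9 / 80 * Real.exp (-3) * n ^ (m + 1) / Real.sqrt n with hQ
  have hQ0 : 0 < Q := by positivity
  have h5 : (T.card : ℝ) < 5 * Real.sqrt n * Q := by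
    calc (T.card : ℝ) ≤ ((T.image B.Ef).card : ℝ) * Q := hcard
      _ ≤ (2 * L + 1) * Q := mul_le_mul_of_nonneg_right hI hQ0.le
      _ < 5 * Real.sqrt n * Q := mul_lt_mul_of_pos_right hLn hQ0
  have h6 : 5 * Real.sqrt n * Q = 9 / 16 * (Real.exp (-3) * n ^ (m + 1)) := by
    rw [hQ]; field_simp; ring
  rw [h6] at h5
  linarith

end Pool.Agent.R94.TS
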