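import Mathlib

/-! Project TS (helper94), MP_2b9fb5_al: the number of subsemigroups of the full transformation semigroup
`T_n` is at least `2^(c n^n / sqrt n)`. -/

namespace Pool.Agent.R94.TS

/-- maps `Fin (m+1) → Fin (m+1)` of rank `R` whose image misses `0` and for which `{0}` is a kernel class -/
def X (m R : ℕ) : Set (Fin (m + 1) → Fin (m + 1)) :=
  {f | (Set.range f).ncard = R ∧ (0 : Fin (m + 1)) ∉ Set.range f ∧ ∀ x, f x = f 0 → x = 0}

/-- TS-A: every subset of `X m R` together with all maps of rank `< R` is a subsemigroup -/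
def SA : Prop :=
  ∀ m R : ℕ, 2 ^ (X m R).ncard ≤
    Nat.card {S : Subsemigroup (Function.End (Fin (m + 1))) // (S : Set (Function.End (Fin (m + 1)))).Nonempty}

/-- TS-B: for some rank the set `X m R` has at least `c n^n / sqrt n` elements, `n = m+1` -/
def SB : Prop :=
  ∃ c : ℝ, 0 < c ∧ ∀ m : ℕ, 3 ≤ m → ∃ R : ℕ,
    c * ((m + 1 : ℕ) : ℝ) ^ (m + 1) / Real.sqrt ((m + 1 : ℕ) : ℝ) ≤ ((X m R).ncard : ℝ)

/-- final statement -/
def Final : Prop :=
  ∃ c : ℝ, 0 < c ∧ ∀ n : ℕ, 4 ≤ n →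
    (2 : ℝ) ^ (c * (n : ℝ) ^ n / Real.sqrt (n : ℝ)) ≤
      (Nat.card {S : Subsemigroup (Function.End (Fin n)) // (S : Set (Function.End (Fin n))).Nonempty} : ℝ)

theorem final (hA : SA) (hB : SB) : Final := by
  obtain ⟨c, hc, hB⟩ := hB
  refine ⟨c, hc, fun n hn => ?_⟩
  obtain ⟨m, rfl⟩ : ∃ m, n = m + 1 := ⟨n - 1, by omega⟩
  obtain ⟨R, hR⟩ := hB m (by omega)
  calc (2 : ℝ) ^ (c * ((m + 1 : ℕ) : ℝ) ^ (m + 1) / Real.sqrt ((m + 1 : ℕ) : ℝ))
      ≤ (2 : ℝ) ^ (((X m R).ncard : ℝ)) :=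
        Real.rpow_le_rpow_of_exponent_le (by norm_num) hR
    _ = ((2 ^ (X m R).ncard : ℕ) : ℝ) := by
        rw [Real.rpow_natCast]; push_cast; rfl
    _ ≤ _ := by exact_mod_cast hA m R

end Pool.Agent.R94.TS
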